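import Pool.Agent.Lib.MP_a3e05c_co.KL.StepM
import Pool.Agent.Lib.MP_a3e05c_co.KL.ClosedA
import Pool.Agent.Lib.MP_a3e05c_co.KL.AmGm

/-!
# EULER: closed components on `D + 1` vertices, deletion of twins
-/

open Finset

namespace MP_a3e05c_co.NUM

open KL

variable {V E : Type} [Fintype V] [DecidableEq V] [Fintype E] [DecidableEq E]

theorem mem_nb {hd : E → Bool → V} {A : Finset V} {w u : V} :
    u ∈ nb hd A w ↔ u ∈ A ∧ Adj hd w u := by
  unfold nb
  rw [mem_filter]

/-- a vertex of degree `#C - 1` of a closed set is adjacent to all other vertices -/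
theorem nb_twin {hd : E → Bool → V} (hs : Simple hd) {C : Finset V} (hC : Closed hd C) {w : V}
    (hw : w ∈ C) (hdw : deg hd w = C.card - 1) : nb hd C w = C.erase w := by
  apply eq_of_subset_of_card_le
  · intro u hu
    rw [mem_nb] at hu
    rw [mem_erase]
    exact ⟨Adj.ne hs hu.2, hu.1⟩
  · rw [card_nb hs, hC w hw, hdw, card_erase_of_mem hw]

theorem adj_twin {hd : E → Bool → V} (hs : Simple hd) {C : Finset V} (hC : Closed hd C) {w u : V}
    (hw : w ∈ C) (hdw : deg hd w = C.card - 1) (hu : u ∈ C) (hne : u ≠ w) : Adj hd w u := by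
  have h1 : u ∈ nb hd C w := by
    rw [nb_twin hs hC hw hdw, mem_erase]
    exact ⟨hne, hu⟩
  exact (mem_nb.1 h1).2

/-- number of alive neighbours after the deletion of the twins `W` -/
theorem kk_sdiff {hd : E → Bool → V} (hs : Simple hd) {C : Finset V} (hC : Closed hd C) :
    ∀ W : Finset V, W ⊆ C → (∀ w ∈ W, deg hd w = C.card - 1) → ∀ u ∈ C, u ∉ W →
      kk hd (C \ W) u + W.card = deg hd u := by
  intro W
  induction W using Finset.induction_on with
  | empty =>
    intro _ _ u hu _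
    rw [sdiff_empty, card_empty, add_zero]
    exact hC u hu
  | insert w W hwW ih =>
    intro hW hd' u hu huW
    rw [mem_insert, not_or] at huW
    have hwC : w ∈ C := hW (mem_insert_self w W)
    have h1 := ih ((subset_insert w W).trans hW) (fun x hx => hd' x (mem_insert_of_mem hx)) u hu
      huW.2
    have h2 : C \ insert w W = (C \ W).erase w := by
      rw [sdiff_insert]
    have h3 : w ∈ C \ W := mem_sdiff.2 ⟨hwC, hwW⟩
    have h4 := kk_erase hs h3 u
    rw [if_pos (adj_twin hs hC hwC (hd' w (mem_insert_self w W)) hu huW.1)] at h4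
    rw [h2, card_insert_of_notMem hwW]
    omega

/-- the alive neighbours of a twin are all other alive vertices -/
theorem nb_sdiff {hd : E → Bool → V} (hs : Simple hd) {C : Finset V} (hC : Closed hd C)
    (W : Finset V) {w : V} (hw : w ∈ C) (hdw : deg hd w = C.card - 1) :
    nb hd (C \ W) w = (C \ W).erase w := by
  ext u
  rw [mem_nb, mem_erase]
  constructor
  · rintro ⟨h1, h2⟩
    exact ⟨Adj.ne hs h2, h1⟩
  · rintro ⟨h1, h2⟩
    exact ⟨h2, adj_twin hs hC hw hdw (mem_sdiff.1 h2).1 h1⟩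

theorem FM_anti' {k M : ℕ} {v v' : ℝ} (h : v ≤ v') (h' : v' ≤ k) : FM k M v' ≤ FM k M v := by
  unfold FM
  have h1 : ((k % 2 : ℕ) : ℝ) ≤ k := by exact_mod_cast Nat.mod_le k 2
  exact FF_antitone (max_le_max h le_rfl) (max_le h' h1)

theorem rh_nonneg {d j : ℕ} (h1 : 1 ≤ j) (h2 : j ≤ d) : 0 ≤ rh d j := by
  unfold rh
  have h3 : (1 : ℝ) ≤ j := by exact_mod_cast h1
  have h4 : (j : ℝ) ≤ d := by exact_mod_cast h2
  apply div_nonneg
  · linarith
  · apply mul_nonneg
    · linarith
    · linarith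

/-- **Deletion of `t` twins.**  `C` is closed on `n` vertices with `q` missing edges.  `L i` bounds
the factor of the deletion after `i` deletions. -/
theorem twins_bound {hd : E → Bool → V} (hs : Simple hd) (hev : ∀ v, Even (deg hd v))
    {C : Finset V} (hC : Closed hd C) {n t q : ℕ} (hn : C.card = n) (hodd : Odd n)
    (hsum : ∑ v ∈ C, (n - 1 - deg hd v) = 2 * q) (ht : 1 ≤ t) (htn : t < n)
    (htw : t ≤ (C.filter fun v => deg hd v = n - 1).card)
    (A : ℕ → ℝ) (φ : ℕ → ℕ → ℝ)
    (hI : ∀ W ⊆ C, W.card = t → (∀ w ∈ W, deg hd w = n - 1) →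
      PA hd (C \ W) ≤ Real.exp (∑ v ∈ C \ W, φ (deg hd v) (kk hd (C \ W) v)))
    (L r0 rc : ℕ → ℝ) (g0 gc : ℝ)
    (hL : ∀ i, 1 ≤ i → i < t → ∀ y : ℝ, 0 ≤ y → y ≤ ((n : ℝ) - 1 - i) * r0 i - q * rc i →
      FM (n - 1 - i) i ((n - 1 - i : ℕ) - y) ≤ Real.exp (-L i))
    (hY : ∀ i, 1 ≤ i → i < t → ∀ m, 2 * m + t ≤ n - 1 →
      rh (n - 1 - 2 * m) (n - 1 - 2 * m - i) ≤ r0 i - m * rc i)
    (hG : ∀ m, 2 * m + t ≤ n - 1 →
      g0 + m * gc ≤ A (n - 1 - 2 * m) - φ (n - 1 - 2 * m) (n - 1 - 2 * m - t))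
    (hfin : 0 ≤ t * A (n - 1) + ((n : ℝ) - t) * g0 + q * gc + ∑ i ∈ Ico 1 t, L i) :
    PA hd C ≤ Real.exp (∑ v ∈ C, A (deg hd v)) := by
  classical
  subst hn
  set n := C.card with hn
  have hnodd := hodd
  obtain ⟨W, hWT, hWt⟩ := exists_subset_card_eq htw
  have hWC : W ⊆ C := fun w hw => (mem_filter.1 (hWT hw)).1
  have hWd : ∀ w ∈ W, deg hd w = n - 1 := fun w hw => (mem_filter.1 (hWT hw)).2
  have hn1 : 1 ≤ n := hodd.pos
  -- degrees
  have hdle : ∀ v ∈ C, deg hd v ≤ n - 1 := by
    intro v hv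
    rw [← hC v hv, ← card_nb hs]
    have h1 : nb hd C v ⊆ C.erase v := by
      intro u hu
      rw [mem_nb] at hu
      rw [mem_erase]
      exact ⟨Adj.ne hs hu.2, hu.1⟩
    have h2 := card_le_card h1
    rwa [card_erase_of_mem hv] at h2
  have hdt : ∀ v ∈ C, v ∉ W → t ≤ deg hd v := by
    intro v hv hvW
    have := kk_sdiff hs hC W hWC hWd v hv hvW
    omega
  -- the defect of a vertex
  let m : V → ℕ := fun v => (n - 1 - deg hd v) / 2
  have hm : ∀ v ∈ C, deg hd v = n - 1 - 2 * m v := by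
    intro v hv
    have h1 := hdle v hv
    obtain ⟨a, ha⟩ := hev v
    obtain ⟨b, hb⟩ := hnodd
    show deg hd v = n - 1 - 2 * ((n - 1 - deg hd v) / 2)
    omega
  have hmW : ∀ v ∈ W, m v = 0 := by
    intro v hv
    show (n - 1 - deg hd v) / 2 = 0
    rw [hWd v hv]
    simp
  have hmt : ∀ v ∈ C, 2 * m v + t ≤ n - 1 := by
    intro v hv
    by_cases hvW : v ∈ W
    · rw [hmW v hvW]
      omega
    · have h1 := hdt v hv hvW
      have h2 := hm v hv
      have h3 := hdle v hv
      have h4 : 2 * m v ≤ n - 1 := by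
        show 2 * ((n - 1 - deg hd v) / 2) ≤ n - 1
        omega
      omega
  have hmsum : ∑ v ∈ C, (m v : ℝ) = q := by
    have h1 : ∑ v ∈ C, 2 * m v = 2 * q := by
      rw [← hsum]
      refine sum_congr rfl fun v hv => ?_
      have h1 := hdle v hv
      have h2 := hm v hv
      have h4 : 2 * m v ≤ n - 1 := by
        show 2 * ((n - 1 - deg hd v) / 2) ≤ n - 1
        omega
      omega
    rw [← mul_sum] at h1
    have h2 : ∑ v ∈ C, m v = q := by omega
    exact_mod_cast h2
  have hmsum' : ∀ W' ⊆ W, ∑ v ∈ C \ W', (m v : ℝ) = q := by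
    intro W' hW'
    rw [← hmsum, ← sum_sdiff (hW'.trans hWC)]
    have : ∑ v ∈ W', (m v : ℝ) = 0 := by
      apply sum_eq_zero
      intro v hv
      rw [hmW v (hW' hv)]
      simp
    rw [this, add_zero]
  -- the chain
  have key : ∀ i, 1 ≤ i → i ≤ t → ∀ W' ⊆ W, W'.card = i →
      PA hd C ≤ Real.exp (-∑ j ∈ Ico 1 i, L j) * PA hd (C \ W') := by
    intro i hi
    induction i, hi using Nat.le_induction with
    | base =>
      intro _ W' hW' hc
      obtain ⟨w, rfl⟩ := card_eq_one.1 hc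
      have hwC : w ∈ C := hWC (hW' (mem_singleton_self w))
      have h1 := PA_closed_erase hs hC hwC
      rw [sdiff_singleton_eq_erase]
      simp [h1]
    | succ i hi ih =>
      intro hit W' hW' hc
      obtain ⟨w, hw⟩ : W'.Nonempty := by
        rw [← card_pos]; omega
      have hW'' : W'.erase w ⊆ W := (erase_subset w W').trans hW'
      have hc'' : (W'.erase w).card = i := by
        rw [card_erase_of_mem hw]; omega
      have h1 := ih (by omega) (W'.erase w) hW'' hc''
      have hwC : w ∈ C := hWC (hW' hw)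
      have hwd := hWd w (hW' hw)
      have hwA : w ∈ C \ W'.erase w := mem_sdiff.2 ⟨hwC, fun h => (mem_erase.1 h).1 rfl⟩
      have h2 := PA_stepM hs hev hwA
      have hk : kk hd (C \ W'.erase w) w = n - 1 - i := by
        have := kk_sdiff hs hC (W'.erase w) (hW''.trans hWC) (fun x hx => hWd x (hW'' hx)) w hwC
          (fun h => (mem_erase.1 h).1 rfl)
        omega
      have hM : deg hd w - kk hd (C \ W'.erase w) w = i := by
        rw [hk, hwd]; omega
      have he : (C \ W'.erase w).erase w = C \ W' := by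
        ext x
        simp only [mem_erase, mem_sdiff]
        constructor
        · rintro ⟨h3, h4, h5⟩
          exact ⟨h4, fun h => h5 ⟨h3, h⟩⟩
        · rintro ⟨h3, h4⟩
          exact ⟨fun h => h4 (h ▸ hw), h3, fun h => h4 h.2⟩
      have hnb := nb_sdiff hs hC (W'.erase w) hwC hwd
      rw [hM, hk, hnb, he] at h2
      -- the sum over the neighbours
      have hW'C : W' ⊆ C := hW'.trans hWC
      have hterm : ∀ u ∈ C \ W', rh (deg hd u) (kk hd (C \ W'.erase w) u) ≤ r0 i - m u * rc i := by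
        intro u hu
        obtain ⟨huC, huW⟩ := mem_sdiff.1 hu
        have h3 := kk_sdiff hs hC (W'.erase w) (hW''.trans hWC) (fun x hx => hWd x (hW'' hx)) u huC
          (fun h => huW (mem_erase.1 h).2)
        have h4 : kk hd (C \ W'.erase w) u = n - 1 - 2 * m u - i := by
          have := hm u huC
          omega
        rw [h4, hm u huC]
        exact hY i hi (by omega) (m u) (hmt u huC)
      have hterm0 : ∀ u ∈ C \ W', 0 ≤ rh (deg hd u) (kk hd (C \ W'.erase w) u) := by
        intro u hu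
        obtain ⟨huC, huW⟩ := mem_sdiff.1 hu
        have h3 := kk_sdiff hs hC (W'.erase w) (hW''.trans hWC) (fun x hx => hWd x (hW'' hx)) u huC
          (fun h => huW (mem_erase.1 h).2)
        have h5 := kk_sdiff hs hC W' hW'C (fun x hx => hWd x (hW' hx)) u huC huW
        apply rh_nonneg
        · omega
        · omega
      have hcard : (C \ W').card = n - 1 - i := by
        rw [card_sdiff_of_subset hW'C, hc]; omega
      have hy1 : ∑ u ∈ C \ W', rh (deg hd u) (kk hd (C \ W'.erase w) u) ≤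
          ((n : ℝ) - 1 - i) * r0 i - q * rc i := by
        calc _ ≤ ∑ u ∈ C \ W', (r0 i - m u * rc i) := sum_le_sum hterm
          _ = ((n - 1 - i : ℕ) : ℝ) * r0 i - (∑ u ∈ C \ W', (m u : ℝ)) * rc i := by
            rw [sum_sub_distrib, sum_const, hcard, nsmul_eq_mul, sum_mul]
          _ = _ := by
            rw [hmsum' W' hW']
            have : ((n - 1 - i : ℕ) : ℝ) = (n : ℝ) - 1 - i := by
              rw [Nat.sub_sub, Nat.cast_sub (by omega)]
              push_cast
              ring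
            rw [this]
      have h6 := hL i hi (by omega) _ (sum_nonneg hterm0) hy1
      calc PA hd C ≤ Real.exp (-∑ j ∈ Ico 1 i, L j) * PA hd (C \ W'.erase w) := h1
        _ ≤ Real.exp (-∑ j ∈ Ico 1 i, L j) * (Real.exp (-L i) * PA hd (C \ W')) := by
          apply mul_le_mul_of_nonneg_left _ (Real.exp_pos _).le
          refine h2.trans ?_
          exact mul_le_mul_of_nonneg_right h6 (PA_nonneg hd _)
        _ = _ := by
          rw [← mul_assoc, ← Real.exp_add, sum_Ico_succ_top hi]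
          congr 2
          ring
  have h1 := key t ht le_rfl W subset_rfl hWt
  have h2 := hI W hWC hWt hWd
  have h3 : ∑ v ∈ C \ W, φ (deg hd v) (kk hd (C \ W) v) ≤
      ∑ v ∈ C \ W, (A (deg hd v) - g0 - m v * gc) := by
    apply sum_le_sum
    intro v hv
    obtain ⟨hvC, hvW⟩ := mem_sdiff.1 hv
    have h4 := kk_sdiff hs hC W hWC hWd v hvC hvW
    have h5 : kk hd (C \ W) v = n - 1 - 2 * m v - t := by
      have := hm v hvC
      omega
    rw [h5, hm v hvC]
    have := hG (m v) (hmt v hvC)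
    linarith
  have hcard : ((C \ W).card : ℝ) = (n : ℝ) - t := by
    rw [card_sdiff_of_subset hWC, hWt, Nat.cast_sub htn.le]
  have h6 : ∑ v ∈ C \ W, (A (deg hd v) - g0 - m v * gc) =
      ∑ v ∈ C \ W, A (deg hd v) - ((n : ℝ) - t) * g0 - q * gc := by
    rw [sum_sub_distrib, sum_sub_distrib, sum_const, nsmul_eq_mul, hcard, ← sum_mul,
      hmsum' W subset_rfl]
  have h7 : ∑ v ∈ C, A (deg hd v) = ∑ v ∈ C \ W, A (deg hd v) + t * A (n - 1) := by
    rw [← sum_sdiff hWC]
    congr 1
    rw [← hWt, ← nsmul_eq_mul, ← sum_const]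
    refine sum_congr rfl fun v hv => ?_
    rw [hWd v hv]
  calc PA hd C ≤ Real.exp (-∑ j ∈ Ico 1 t, L j) * PA hd (C \ W) := h1
    _ ≤ Real.exp (-∑ j ∈ Ico 1 t, L j) *
        Real.exp (∑ v ∈ C \ W, φ (deg hd v) (kk hd (C \ W) v)) :=
      mul_le_mul_of_nonneg_left h2 (Real.exp_pos _).le
    _ = Real.exp (-∑ j ∈ Ico 1 t, L j + ∑ v ∈ C \ W, φ (deg hd v) (kk hd (C \ W) v)) := by
      rw [Real.exp_add]
    _ ≤ _ := by
      apply Real.exp_le_exp.2
      rw [h7]
      linarith

/-- number of twins -/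
theorem card_twins {hd : E → Bool → V} (hs : Simple hd) (hev : ∀ v, Even (deg hd v))
    {C : Finset V} (hC : Closed hd C) {n q : ℕ} (hn : C.card = n) (hodd : Odd n)
    (hsum : ∑ v ∈ C, (n - 1 - deg hd v) = 2 * q) :
    n ≤ (C.filter fun v => deg hd v = n - 1).card + q := by
  have hdle : ∀ v ∈ C, deg hd v ≤ n - 1 := by
    intro v hv
    rw [← hC v hv, ← card_nb hs]
    have h1 : nb hd C v ⊆ C.erase v := by
      intro u hu
      rw [mem_nb] at hu
      rw [mem_erase]
      exact ⟨Adj.ne hs hu.2, hu.1⟩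
    have h2 := card_le_card h1
    rwa [card_erase_of_mem hv, hn] at h2
  have h1 := card_filter_add_card_filter_not (s := C) (fun v => deg hd v = n - 1)
  have h2 : 2 * (C.filter fun v => ¬ deg hd v = n - 1).card ≤ 2 * q := by
    rw [← hsum, mul_comm, ← smul_eq_mul, ← sum_const]
    refine le_trans (sum_le_sum fun v hv => ?_) (sum_le_sum_of_subset (filter_subset _ _))
    obtain ⟨h3, h4⟩ := mem_filter.1 hv
    have h5 := hdle v h3
    obtain ⟨a, ha⟩ := hev v
    obtain ⟨b, hb⟩ := hodd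
    omega
  omega

end MP_a3e05c_co.NUM
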