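import Pool.Agent.Lib.MP_a3e05c_co.NUM.TabA
import Pool.Agent.Lib.MP_a3e05c_co.NUM.Twins

/-!
# EULER: closed components on `D + 1` vertices, small cases (kernel arithmetic)
-/

open Finset

namespace MP_a3e05c_co.NUM

open KL

/-- `ρ(d, j)`, rounded up -/
def rU (d j : ℕ) : ℕ := (j - 1) * S / ((d - 1) * (d - j + 1)) + 1

theorem le_rU {d j : ℕ} (h1 : 1 ≤ j) (h2 : j ≤ d) (h3 : 2 ≤ d) : S * rh d j ≤ (rU d j : ℝ) := by
  have h4 := lt_div_add_one ((j - 1) * S) ((d - 1) * (d - j + 1))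
    (Nat.mul_pos (by omega) (by omega))
  unfold rU rh
  rw [Nat.cast_add, Nat.cast_one]
  refine le_trans (le_of_eq ?_) h4
  push_cast [Nat.cast_sub h1, Nat.cast_sub h2, Nat.cast_sub (show 1 ≤ d by omega)]
  ring

/-- check all `i < n` -/
def allB (f : ℕ → Bool) : ℕ → Bool
  | 0 => true
  | n + 1 => f n && allB f n

theorem allB_spec {f : ℕ → Bool} : ∀ {n : ℕ}, allB f n = true → ∀ i < n, f i = true
  | 0, _, i, hi => absurd hi (Nat.not_lt_zero i)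
  | n + 1, h, i, hi => by
    have h' : (f n && allB f n) = true := h
    rw [Bool.and_eq_true] at h'
    rcases Nat.lt_succ_iff_lt_or_eq.1 hi with h1 | h1
    · exact allB_spec h'.2 i h1
    · rw [h1]; exact h'.1

def R0 (n i : ℕ) : ℤ := rU (n - 1) (n - 1 - i)
def Rc (n i : ℕ) : ℤ := R0 n i - rU (n - 3) (n - 3 - i)
def Gv (n t m : ℕ) : ℤ := pL (n - 1 - 2 * m) (n - 1 - 2 * m - t) - aU (n - 1 - 2 * m)
def Gc (n t : ℕ) : ℤ := Gv n t 1 - Gv n t 0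
/-- lower bound of the variance -/
def Tv (n q i : ℕ) : ℤ := ((n - 1 - i : ℕ) : ℤ) * S - (((n - 1 - i : ℕ) : ℤ) * R0 n i - q * Rc n i)
def Lv (n q i : ℕ) : ℤ := nlF (n - 1 - i) i (Tv n q i).toNat

/-- the whole check -/
def ck (n t q : ℕ) : Bool :=
  decide (0 ≤ Gc n t) &&
  allB (fun m => decide (Gv n t 0 + m * Gc n t ≤ Gv n t m)) ((n - 1 - t) / 2 + 1) &&
  allB (fun i => decide (0 ≤ Rc n (i + 1)) && decide (0 ≤ Tv n q (i + 1)) &&
    allB (fun m => decide ((rU (n - 1 - 2 * m) (n - 1 - 2 * m - (i + 1)) : ℤ) ≤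
      R0 n (i + 1) - m * Rc n (i + 1))) ((n - 1 - t) / 2 + 1)) (t - 1) &&
  decide (0 ≤ -(t * aU (n - 1)) + (n - t) * Gv n t 0 + q * Gc n t +
    sumZ (fun i => Lv n q (i + 1)) (t - 1))

variable {V E : Type} [Fintype V] [DecidableEq V] [Fintype E] [DecidableEq E]

/-- **Closed components, one range of `q`.** -/
theorem of_ck (hR : RTlow) (hP : RTgen) {hd : E → Bool → V} (hs : Simple hd)
    (hev : ∀ v, Even (deg hd v)) {C : Finset V} (hC : Closed hd C) {n t q0 q : ℕ}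
    (hn : C.card = n) (hodd : Odd n) (ht : 1 ≤ t) (htn : t + 1 < n)
    (hsum : ∑ v ∈ C, (n - 1 - deg hd v) = 2 * q) (hq : q0 ≤ q)
    (htw : t ≤ (C.filter fun v => deg hd v = n - 1).card)
    (hI : ∀ W ⊆ C, W.card = t → (∀ w ∈ W, deg hd w = n - 1) →
      PA hd (C \ W) ≤ Real.exp (∑ v ∈ C \ W, phi (deg hd v) (kk hd (C \ W) v)))
    (hck : ck n t q0 = true) :
    PA hd C ≤ Real.exp (∑ v ∈ C, AA (deg hd v)) := by
  have hS := S_pos
  unfold ck at hck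
  simp only [Bool.and_eq_true, decide_eq_true_eq] at hck
  obtain ⟨⟨⟨hc1, hc2⟩, hc3⟩, hc4⟩ := hck
  have hqR : (q0 : ℝ) ≤ q := by exact_mod_cast hq
  have hGc : (0 : ℝ) ≤ (Gc n t : ℝ) := by exact_mod_cast hc1
  refine twins_bound hs hev hC hn hodd hsum ht (by omega) htw AA phi hI
    (fun i => (Lv n q0 i : ℝ) / S) (fun i => (R0 n i : ℝ) / S) (fun i => (Rc n i : ℝ) / S)
    ((Gv n t 0 : ℝ) / S) ((Gc n t : ℝ) / S) ?_ ?_ ?_ ?_
  · intro i hi hit y hy0 hy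
    obtain ⟨j, rfl⟩ : ∃ j, i = j + 1 := ⟨i - 1, by omega⟩
    have h1 := allB_spec hc3 j (by omega)
    simp only [Bool.and_eq_true, decide_eq_true_eq] at h1
    obtain ⟨⟨h2, h3⟩, -⟩ := h1
    have hk : ((n - 1 - (j + 1) : ℕ) : ℝ) = (n : ℝ) - 1 - ((j + 1 : ℕ) : ℝ) := by
      rw [Nat.cast_sub (by omega), Nat.cast_sub (by omega)]
      simp
    show FM (n - 1 - (j + 1)) (j + 1) (((n - 1 - (j + 1) : ℕ) : ℝ) - y) ≤
      Real.exp (-((Lv n q0 (j + 1) : ℝ) / S))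
    unfold Lv
    rw [Int.cast_natCast]
    apply FM_le_exp
    · have h4 : (((Tv n q0 (j + 1)).toNat : ℕ) : ℝ) = (Tv n q0 (j + 1) : ℝ) := by
        have : (((Tv n q0 (j + 1)).toNat : ℕ) : ℤ) = Tv n q0 (j + 1) := Int.toNat_of_nonneg h3
        exact_mod_cast congrArg (Int.cast : ℤ → ℝ) this
      rw [h4, div_le_iff₀ hS]
      unfold Tv
      push_cast [hk] at hy ⊢
      have h5 : (q0 : ℝ) * (Rc n (j + 1) : ℝ) ≤ q * (Rc n (j + 1) : ℝ) :=
        mul_le_mul_of_nonneg_right hqR (by exact_mod_cast h2)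
      have h6 : y * S ≤ ((n : ℝ) - 1 - ((j : ℝ) + 1)) * (R0 n (j + 1) : ℝ) -
          q * (Rc n (j + 1) : ℝ) := by
        have h7 : y * S ≤ (((n : ℝ) - 1 - ((j : ℝ) + 1)) * ((R0 n (j + 1) : ℝ) / S) -
          q * ((Rc n (j + 1) : ℝ) / S)) * S := mul_le_mul_of_nonneg_right hy hS.le
        refine h7.trans (le_of_eq ?_)
        field_simp
      nlinarith
    · linarith
  · intro i hi hit m hm
    obtain ⟨j, rfl⟩ : ∃ j, i = j + 1 := ⟨i - 1, by omega⟩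
    have h1 := allB_spec hc3 j (by omega)
    simp only [Bool.and_eq_true, decide_eq_true_eq] at h1
    have h2 := allB_spec h1.2 m (by omega)
    rw [decide_eq_true_eq] at h2
    have h3 := le_rU (d := n - 1 - 2 * m) (j := n - 1 - 2 * m - (j + 1)) (by omega) (by omega)
      (by omega)
    have h4 : ((rU (n - 1 - 2 * m) (n - 1 - 2 * m - (j + 1)) : ℕ) : ℝ) ≤
        (R0 n (j + 1) : ℝ) - m * (Rc n (j + 1) : ℝ) := by exact_mod_cast h2
    have h5 : S * rh (n - 1 - 2 * m) (n - 1 - 2 * m - (j + 1)) ≤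
        (R0 n (j + 1) : ℝ) - m * (Rc n (j + 1) : ℝ) := h3.trans h4
    have h6 : (R0 n (j + 1) : ℝ) / S - m * ((Rc n (j + 1) : ℝ) / S) =
        ((R0 n (j + 1) : ℝ) - m * (Rc n (j + 1) : ℝ)) / S := by ring
    show rh (n - 1 - 2 * m) (n - 1 - 2 * m - (j + 1)) ≤
      (R0 n (j + 1) : ℝ) / S - m * ((Rc n (j + 1) : ℝ) / S)
    rw [h6, le_div_iff₀ hS, mul_comm]
    exact h5
  · intro m hm
    have h1 := allB_spec hc2 m (by omega)
    rw [decide_eq_true_eq] at h1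
    have hd2 : 2 ≤ n - 1 - 2 * m := by
      obtain ⟨k, rfl⟩ := hodd
      omega
    have hdev : Even (n - 1 - 2 * m) := by
      obtain ⟨k, rfl⟩ := hodd
      exact ⟨k - m, by omega⟩
    have h2 := pL_le (d := n - 1 - 2 * m) (k := n - 1 - 2 * m - t) hd2 (by omega)
    have h3 := le_aU hR hP hdev hd2
    have h4 : (Gv n t 0 : ℝ) + m * (Gc n t : ℝ) ≤ (Gv n t m : ℝ) := by exact_mod_cast h1
    have h5 : (Gv n t m : ℝ) = (pL (n - 1 - 2 * m) (n - 1 - 2 * m - t) : ℝ) -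
        (aU (n - 1 - 2 * m) : ℝ) := by
      unfold Gv
      push_cast
      ring
    have h6 : (Gv n t 0 : ℝ) / S + m * ((Gc n t : ℝ) / S) =
        ((Gv n t 0 : ℝ) + m * (Gc n t : ℝ)) / S := by ring
    rw [h6, div_le_iff₀ hS]
    linarith
  · have h1 : (0 : ℝ) ≤ -(t * (aU (n - 1) : ℝ)) + ((n : ℝ) - t) * (Gv n t 0 : ℝ) +
        q0 * (Gc n t : ℝ) + ((sumZ (fun i => Lv n q0 (i + 1)) (t - 1) : ℤ) : ℝ) := by
      exact_mod_cast hc4
    have hev1 : Even (n - 1) := by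
      obtain ⟨k, rfl⟩ := hodd
      exact ⟨k, by omega⟩
    have h2 := le_aU hR hP hev1 (by omega)
    have h3 : ((sumZ (fun i => Lv n q0 (i + 1)) (t - 1) : ℤ) : ℝ) =
        ∑ i ∈ Ico 1 t, (Lv n q0 i : ℝ) := by
      rw [sumZ_eq, Int.cast_sum, Finset.sum_Ico_eq_sum_range]
      refine sum_congr rfl fun i _ => ?_
      rw [add_comm]
    have h4 : ∑ i ∈ Ico 1 t, (Lv n q0 i : ℝ) / S = (∑ i ∈ Ico 1 t, (Lv n q0 i : ℝ)) / S := by
      rw [sum_div]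
    rw [h4, ← h3]
    have h5 : (t : ℝ) * AA (n - 1) * S ≥ -(t * (aU (n - 1) : ℝ)) := by
      have := mul_le_mul_of_nonneg_left h2 (Nat.cast_nonneg t : (0 : ℝ) ≤ t)
      linarith
    have h6 : (q0 : ℝ) * (Gc n t : ℝ) ≤ q * (Gc n t : ℝ) := mul_le_mul_of_nonneg_right hqR hGc
    have h7 : 0 ≤ (t * AA (n - 1) + ((n : ℝ) - t) * ((Gv n t 0 : ℝ) / S) +
        q * ((Gc n t : ℝ) / S) +
        ((sumZ (fun i => Lv n q0 (i + 1)) (t - 1) : ℤ) : ℝ) / S) * S := by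
      have h8 : (t * AA (n - 1) + ((n : ℝ) - t) * ((Gv n t 0 : ℝ) / S) +
          q * ((Gc n t : ℝ) / S) +
          ((sumZ (fun i => Lv n q0 (i + 1)) (t - 1) : ℤ) : ℝ) / S) * S =
          t * AA (n - 1) * S + ((n : ℝ) - t) * (Gv n t 0 : ℝ) + q * (Gc n t : ℝ) +
          ((sumZ (fun i => Lv n q0 (i + 1)) (t - 1) : ℤ) : ℝ) := by
        field_simp
      rw [h8]
      linarith
    exact nonneg_of_mul_nonneg_left h7 hS

end MP_a3e05c_co.NUM
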