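import Mathlib

/-!
# EULER, numerics: certified logarithms of rational numbers in fixed point arithmetic

`lgL a b ≤ 10 ^ 15 * log (a / b) ≤ lgU a b` for `0 < b ≤ a`.  All functions are natural number
functions built from `+ * /`, so that they can be evaluated in the kernel.
-/

open Finset

namespace MP_a3e05c_co.NUM

/-- the scale -/
def S : ℕ := 1000000000000000

theorem S_pos : (0 : ℝ) < S := by norm_num [S]

/-- Horner scheme, rounded down -/
def hL (w : ℕ) : ℕ → ℕ → ℕ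
  | 0, _ => 0
  | n + 1, i => S / (2 * i + 1) + w * hL w n (i + 1) / S

/-- Horner scheme, rounded up -/
def hU (w : ℕ) : ℕ → ℕ → ℕ
  | 0, _ => 0
  | n + 1, i => S / (2 * i + 1) + 1 + (w * hU w n (i + 1) / S + 1)

/-- `∑_(j < n) x ^ j / (2 (i + j) + 1)` -/
noncomputable def hR (x : ℝ) (n i : ℕ) : ℝ := ∑ j ∈ range n, x ^ j / (2 * ((i : ℝ) + j) + 1)

theorem hR_succ (x : ℝ) (n i : ℕ) : hR x (n + 1) i = 1 / (2 * (i : ℝ) + 1) + x * hR x n (i + 1) := by
  unfold hR
  rw [sum_range_succ', mul_sum, add_comm]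
  congr 1
  · simp
  · refine sum_congr rfl fun j _ => ?_
    rw [pow_succ]
    push_cast
    ring

theorem hR_nonneg {x : ℝ} (hx : 0 ≤ x) (n i : ℕ) : 0 ≤ hR x n i := by
  unfold hR
  positivity

theorem div_le' (a b : ℕ) : ((a / b : ℕ) : ℝ) ≤ (a : ℝ) / b := Nat.cast_div_le

theorem lt_div_add_one (a b : ℕ) (hb : 0 < b) : (a : ℝ) / b ≤ ((a / b : ℕ) : ℝ) + 1 := by
  rw [div_le_iff₀ (by exact_mod_cast hb)]
  have h1 : a < (a / b + 1) * b := by
    rw [mul_comm]
    exact Nat.lt_mul_div_succ a hb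
  exact_mod_cast h1.le

theorem hL_le {x : ℝ} {w : ℕ} (hw : (w : ℝ) / S ≤ x) (n : ℕ) :
    ∀ i, (hL w n i : ℝ) / S ≤ hR x n i := by
  have hx : 0 ≤ x := le_trans (by positivity) hw
  induction n with
  | zero => intro i; simp [hL, hR]
  | succ n ih =>
    intro i
    rw [hR_succ]
    show (((S / (2 * i + 1) + w * hL w n (i + 1) / S : ℕ)) : ℝ) / S ≤ _
    have h1 := div_le' S (2 * i + 1)
    have h2 := div_le' (w * hL w n (i + 1)) S
    have h3 := ih (i + 1)
    have hS := S_pos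
    push_cast at h1 h2 ⊢
    rw [add_div]
    refine add_le_add ?_ ?_
    · rw [div_le_iff₀ hS]
      calc _ ≤ _ := h1
        _ = _ := by ring
    · calc _ ≤ ((w : ℝ) * (hL w n (i + 1) : ℝ) / S) / S := div_le_div_of_nonneg_right h2 hS.le
        _ = (w : ℝ) / S * ((hL w n (i + 1) : ℝ) / S) := by ring
        _ ≤ x * hR x n (i + 1) := mul_le_mul hw h3 (by positivity) hx

theorem le_hU {x : ℝ} {w : ℕ} (hx : 0 ≤ x) (hw : x ≤ (w : ℝ) / S) (n : ℕ) :
    ∀ i, hR x n i ≤ (hU w n i : ℝ) / S := by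
  induction n with
  | zero => intro i; simp [hU, hR]
  | succ n ih =>
    intro i
    rw [hR_succ]
    show _ ≤ (((S / (2 * i + 1) + 1 + (w * hU w n (i + 1) / S + 1) : ℕ)) : ℝ) / S
    have h1 := lt_div_add_one S (2 * i + 1) (by omega)
    have h2 := lt_div_add_one (w * hU w n (i + 1)) S (by norm_num [S])
    have h3 := ih (i + 1)
    have hS := S_pos
    push_cast at h1 h2 ⊢
    rw [add_div]
    refine add_le_add ?_ ?_
    · rw [le_div_iff₀ hS]
      calc _ = _ := by ring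
        _ ≤ _ := h1
    · calc x * hR x n (i + 1) ≤ (w : ℝ) / S * ((hU w n (i + 1) : ℝ) / S) :=
            mul_le_mul hw h3 (hR_nonneg hx _ _) (by positivity)
        _ = ((w : ℝ) * (hU w n (i + 1) : ℝ) / S) / S := by ring
        _ ≤ _ := div_le_div_of_nonneg_right h2 hS.le

theorem hR_eq (z : ℝ) (n : ℕ) :
    z * hR (z ^ 2) n 0 = ∑ i ∈ range n, z ^ (2 * i + 1) / (2 * i + 1) := by
  unfold hR
  rw [mul_sum]
  refine sum_congr rfl fun j _ => ?_
  have h1 : z ^ (2 * j + 1) = z * (z ^ 2) ^ j := by rw [pow_succ, pow_mul, mul_comm]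
  rw [h1]
  push_cast
  ring

theorem log_mono_z {a b : ℝ} (hb : 0 < b) (hab : b ≤ a) :
    (1 + (a - b) / (a + b)) / (1 - (a - b) / (a + b)) = a / b := by
  have h1 : 0 < a + b := by linarith
  have h2 : 1 - (a - b) / (a + b) = 2 * b / (a + b) := by field_simp; ring
  have h3 : 1 + (a - b) / (a + b) = 2 * a / (a + b) := by field_simp; ring
  rw [h2, h3]
  field_simp

theorem log_z_mono {z z' : ℝ} (h0 : 0 ≤ z) (h : z ≤ z') (h1 : z' < 1) :
    Real.log ((1 + z) / (1 - z)) ≤ Real.log ((1 + z') / (1 - z')) := by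
  apply Real.log_le_log
  · have : 0 < 1 - z := by linarith
    positivity
  · have h2 : 0 < 1 - z := by linarith
    have h3 : 0 < 1 - z' := by linarith
    rw [div_le_div_iff₀ h2 h3]
    nlinarith

/-- lower bound, `a / b` in `[1, 2]` (any `a ≥ b` is allowed) -/
def lmL (a b : ℕ) : ℕ :=
  let z := S * (a - b) / (a + b)
  2 * z * hL (z * z / S) 16 0 / S

/-- upper bound, `a / b` in `[1, 2]` (if `a / b` is too large a trivial bound is given) -/
def lmU (a b : ℕ) : ℕ :=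
  let z := S * (a - b) / (a + b) + 1
  if 1000 * z ≤ 334 * S then 2 * z * hU (z * z / S + 1) 16 0 / S + 2
  else S * (a - b) / b + 1

theorem lmL_le {a b : ℕ} (hb : 0 < b) (hab : b ≤ a) :
    (lmL a b : ℝ) ≤ S * Real.log ((a : ℝ) / b) := by
  have hS := S_pos
  have hb' : (0 : ℝ) < b := by exact_mod_cast hb
  have hab' : (b : ℝ) ≤ a := by exact_mod_cast hab
  have hsum : (0 : ℝ) < a + b := by linarith
  show ((2 * (S * (a - b) / (a + b)) *
    hL (S * (a - b) / (a + b) * (S * (a - b) / (a + b)) / S) 16 0 / S : ℕ) : ℝ) ≤ _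
  generalize hz : S * (a - b) / (a + b) = z
  have h1 : (z : ℝ) ≤ S * (((a : ℝ) - b) / (a + b)) := by
    have := div_le' (S * (a - b)) (a + b)
    rw [hz] at this
    push_cast [Nat.cast_sub hab] at this
    calc (z : ℝ) ≤ _ := this
      _ = _ := by ring
  set x : ℝ := (z : ℝ) / S with hx
  have hx0 : 0 ≤ x := by positivity
  have hx1 : x ≤ ((a : ℝ) - b) / (a + b) := by
    rw [hx, div_le_iff₀ hS]; linarith
  have hx2 : ((a : ℝ) - b) / (a + b) < 1 := by
    rw [div_lt_one hsum]; linarith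
  have h2 : ((z * z / S : ℕ) : ℝ) / S ≤ x ^ 2 := by
    have := div_le' (z * z) S
    push_cast at this
    rw [div_le_iff₀ hS]
    calc ((z * z / S : ℕ) : ℝ) ≤ _ := this
      _ = _ := by rw [hx]; field_simp
  have h3 := hL_le h2 16 0
  have h4 := Real.sum_range_le_log_div hx0 (lt_of_le_of_lt hx1 hx2) 16
  rw [← hR_eq] at h4
  have h5 := log_z_mono hx0 hx1 hx2
  rw [log_mono_z hb' hab'] at h5
  have h6 := div_le' (2 * z * hL (z * z / S) 16 0) S
  push_cast at h6
  have h7 : x * ((hL (z * z / S) 16 0 : ℝ) / S) ≤ x * hR (x ^ 2) 16 0 :=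
    mul_le_mul_of_nonneg_left h3 hx0
  calc _ ≤ _ := h6
    _ = S * (2 * (x * ((hL (z * z / S) 16 0 : ℝ) / S))) := by rw [hx]; field_simp
    _ ≤ S * Real.log ((a : ℝ) / b) := by
      apply mul_le_mul_of_nonneg_left _ hS.le
      linarith

theorem le_lmU {a b : ℕ} (hb : 0 < b) (hab : b ≤ a) :
    S * Real.log ((a : ℝ) / b) ≤ lmU a b := by
  have hS := S_pos
  have hb' : (0 : ℝ) < b := by exact_mod_cast hb
  have hab' : (b : ℝ) ≤ a := by exact_mod_cast hab
  have hsum : (0 : ℝ) < a + b := by linarith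
  show _ ≤ ((if 1000 * (S * (a - b) / (a + b) + 1) ≤ 334 * S then
    2 * (S * (a - b) / (a + b) + 1) *
      hU ((S * (a - b) / (a + b) + 1) * (S * (a - b) / (a + b) + 1) / S + 1) 16 0 / S + 2
    else S * (a - b) / b + 1 : ℕ) : ℝ)
  split_ifs with hc
  · generalize hz : S * (a - b) / (a + b) + 1 = z at hc ⊢
    have h1 : S * (((a : ℝ) - b) / (a + b)) ≤ z := by
      have := lt_div_add_one (S * (a - b)) (a + b) (by omega)
      have hz' : ((S * (a - b) / (a + b) : ℕ) : ℝ) + 1 = z := by exact_mod_cast hz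
      rw [hz'] at this
      push_cast [Nat.cast_sub hab] at this
      calc _ = _ := by ring
        _ ≤ (z : ℝ) := this
    have hcR : 1000 * (z : ℝ) ≤ 334 * S := by exact_mod_cast hc
    set x : ℝ := (z : ℝ) / S with hx
    have hx0 : 0 ≤ x := by positivity
    have hx3 : x ≤ 334 / 1000 := by
      rw [hx, div_le_iff₀ hS]; linarith
    have hx1 : ((a : ℝ) - b) / (a + b) ≤ x := by
      rw [hx, le_div_iff₀ hS]; linarith
    have hy0 : 0 ≤ ((a : ℝ) - b) / (a + b) := div_nonneg (by linarith) hsum.le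
    have h2 : x ^ 2 ≤ ((z * z / S + 1 : ℕ) : ℝ) / S := by
      have := lt_div_add_one (z * z) S (by norm_num [S])
      push_cast at this ⊢
      rw [le_div_iff₀ hS]
      calc _ = (z : ℝ) * z / S := by rw [hx]; field_simp
        _ ≤ _ := this
    have h3 := le_hU (sq_nonneg x) h2 16 0
    have h4 := Real.log_div_le_sum_range_add hx0 (by linarith : x < 1) 16
    rw [← hR_eq] at h4
    have h5 := log_z_mono hy0 hx1 (by linarith)
    rw [log_mono_z hb' hab'] at h5
    have h6 := lt_div_add_one (2 * z * hU (z * z / S + 1) 16 0) S (by norm_num [S])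
    push_cast at h6
    have h7 : x * hR (x ^ 2) 16 0 ≤ x * ((hU (z * z / S + 1) 16 0 : ℝ) / S) :=
      mul_le_mul_of_nonneg_left h3 hx0
    have h8 : x ^ (2 * 16 + 1) / (1 - x ^ 2) ≤ 1 / (2 * (S : ℝ)) := by
      have e1 : x ^ (2 * 16 + 1) ≤ (334 / 1000) ^ (2 * 16 + 1) := pow_le_pow_left₀ hx0 hx3 _
      have e2 : x ^ 2 ≤ (334 / 1000) ^ 2 := pow_le_pow_left₀ hx0 hx3 _
      have e3 : (0 : ℝ) < 1 - x ^ 2 := by nlinarith
      calc x ^ (2 * 16 + 1) / (1 - x ^ 2)
          ≤ (334 / 1000) ^ (2 * 16 + 1) / (1 - (334 / 1000) ^ 2) := by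
            apply div_le_div₀ (by positivity) e1 (by norm_num) (by linarith)
        _ ≤ 1 / (2 * (S : ℝ)) := by norm_num [S]
    push_cast
    calc S * Real.log ((a : ℝ) / b)
        ≤ S * (2 * (x * ((hU (z * z / S + 1) 16 0 : ℝ) / S) + 1 / (2 * (S : ℝ)))) := by
          apply mul_le_mul_of_nonneg_left _ hS.le
          linarith
      _ = 2 * (z : ℝ) * (hU (z * z / S + 1) 16 0 : ℝ) / S + 1 := by
          rw [mul_add, mul_add, hx]; field_simp
      _ ≤ _ := by linarith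
  · have h1 := lt_div_add_one (S * (a - b)) b hb
    push_cast [Nat.cast_sub hab] at h1 ⊢
    have h2 := Real.log_le_sub_one_of_pos (x := (a : ℝ) / b) (div_pos (by linarith) hb')
    calc S * Real.log ((a : ℝ) / b) ≤ S * ((a : ℝ) / b - 1) := mul_le_mul_of_nonneg_left h2 hS.le
      _ = S * ((a : ℝ) - b) / b := by field_simp
      _ ≤ _ := h1

/-- lower bound of `S * log (a / b)`, `0 < b ≤ a` -/
def lgL (a b : ℕ) : ℕ :=
  let e := Nat.log2 (a / b)
  e * lmL 2 1 + lmL a (b * 2 ^ e)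

/-- upper bound of `S * log (a / b)`, `0 < b ≤ a` -/
def lgU (a b : ℕ) : ℕ :=
  let e := Nat.log2 (a / b)
  e * lmU 2 1 + lmU a (b * 2 ^ e)

theorem pow_log2_mul_le {a b : ℕ} (hb : 0 < b) (hab : b ≤ a) : b * 2 ^ Nat.log2 (a / b) ≤ a := by
  have h1 : a / b ≠ 0 := by
    have := Nat.div_pos hab hb
    omega
  have h2 := Nat.log2_self_le h1
  calc b * 2 ^ Nat.log2 (a / b) ≤ b * (a / b) := Nat.mul_le_mul_left _ h2
    _ ≤ a := Nat.mul_div_le a b

theorem log_split {a b : ℕ} (hb : 0 < b) (hab : b ≤ a) (e : ℕ) :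
    Real.log ((a : ℝ) / b) = e * Real.log 2 + Real.log ((a : ℝ) / ((b * 2 ^ e : ℕ) : ℝ)) := by
  have hb' : (b : ℝ) ≠ 0 := by exact_mod_cast hb.ne'
  have ha' : (a : ℝ) ≠ 0 := by
    have : 0 < a := lt_of_lt_of_le hb hab
    exact_mod_cast this.ne'
  have h2 : ((2 : ℝ) ^ e) ≠ 0 := by positivity
  push_cast
  rw [Real.log_div ha' hb', Real.log_div ha' (mul_ne_zero hb' h2), Real.log_mul hb' h2,
    Real.log_pow]
  ring

theorem lgL_le {a b : ℕ} (hb : 0 < b) (hab : b ≤ a) :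
    (lgL a b : ℝ) ≤ S * Real.log ((a : ℝ) / b) := by
  show ((Nat.log2 (a / b) * lmL 2 1 + lmL a (b * 2 ^ Nat.log2 (a / b)) : ℕ) : ℝ) ≤ _
  have h1 := pow_log2_mul_le hb hab
  generalize Nat.log2 (a / b) = e at h1 ⊢
  rw [log_split hb hab e]
  have h2 := lmL_le (a := 2) (b := 1) one_pos one_le_two
  have h3 := lmL_le (a := a) (b := b * 2 ^ e) (Nat.mul_pos hb (by positivity)) h1
  push_cast at h2 h3 ⊢
  rw [div_one] at h2
  have h4 : (e : ℝ) * (lmL 2 1 : ℝ) ≤ e * (S * Real.log 2) :=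
    mul_le_mul_of_nonneg_left h2 (Nat.cast_nonneg e)
  linarith

theorem le_lgU {a b : ℕ} (hb : 0 < b) (hab : b ≤ a) :
    S * Real.log ((a : ℝ) / b) ≤ lgU a b := by
  show _ ≤ ((Nat.log2 (a / b) * lmU 2 1 + lmU a (b * 2 ^ Nat.log2 (a / b)) : ℕ) : ℝ)
  have h1 := pow_log2_mul_le hb hab
  generalize Nat.log2 (a / b) = e at h1 ⊢
  rw [log_split hb hab e]
  have h2 := le_lmU (a := 2) (b := 1) one_pos one_le_two
  have h3 := le_lmU (a := a) (b := b * 2 ^ e) (Nat.mul_pos hb (by positivity)) h1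
  push_cast at h2 h3 ⊢
  rw [div_one] at h2
  have h4 : (e : ℝ) * (S * Real.log 2) ≤ e * (lmU 2 1 : ℝ) :=
    mul_le_mul_of_nonneg_left h2 (Nat.cast_nonneg e)
  linarith

end MP_a3e05c_co.NUM
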