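import Pool.Agent.Lib.MP_a3e05c_co.KL.AmGm
import Pool.Agent.Lib.MP_a3e05c_co.KL.PDefs
import Pool.Agent.Lib.MP_a3e05c_co.NUM.Log

/-!
# EULER, numerics: the bound `FM` of the key lemma at rational arguments
-/

open Finset

namespace MP_a3e05c_co.NUM

open KL

/-- central binomial coefficients, fast -/
def cbN : ℕ → ℕ
  | 0 => 1
  | n + 1 => 2 * (2 * n + 1) * cbN n / (n + 1)

theorem cbN_eq (n : ℕ) : cbN n = Nat.centralBinom n := by
  induction n with
  | zero => rfl
  | succ n ih =>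
    show 2 * (2 * n + 1) * cbN n / (n + 1) = _
    rw [ih, ← Nat.succ_mul_centralBinom_succ]
    exact Nat.mul_div_cancel_left _ (Nat.succ_pos n)

/-- the terms `m < j` of the numerator of `BN K (s / S) n` -/
def bnAux (s K n : ℕ) : ℕ → ℕ
  | 0 => 0
  | j + 1 => bnAux s K n j + Nat.choose K j * (S - s) ^ (K - j) * s ^ j * (cbN (n + j) * 4 ^ (K - j))

/-- numerator of `BN K (s / S) n` -/
def bnN (s K n : ℕ) : ℕ := bnAux s K n (K + 1)

/-- denominator of `BN K (s / S) n` -/
def bnD (K n : ℕ) : ℕ := S ^ K * 4 ^ (n + K)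

theorem bnD_pos (K n : ℕ) : 0 < bnD K n := by
  unfold bnD
  have : 0 < S := by norm_num [S]
  positivity

theorem BN_eq {s : ℕ} (hs : s ≤ S) (K n : ℕ) :
    BN K ((s : ℝ) / S) n = (bnN s K n : ℝ) / bnD K n := by
  have hS := S_pos
  have h1 : ∀ j ≤ K + 1, ((bnAux s K n j : ℕ) : ℝ) / bnD K n =
      ∑ m ∈ range j, (K.choose m : ℝ) * (1 - (s : ℝ) / S) ^ (K - m) * ((s : ℝ) / S) ^ m *
        bb (n + m) := by
    intro j
    induction j with
    | zero => intro _; simp [bnAux]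
    | succ j ih =>
      intro hj
      rw [sum_range_succ, ← ih (by omega)]
      show (((bnAux s K n j + Nat.choose K j * (S - s) ^ (K - j) * s ^ j *
        (cbN (n + j) * 4 ^ (K - j)) : ℕ)) : ℝ) / bnD K n = _
      push_cast [Nat.cast_sub hs]
      rw [add_div]
      congr 1
      obtain ⟨i, hi⟩ : ∃ i, K = j + i := ⟨K - j, by omega⟩
      have hi' : K - j = i := by omega
      unfold bnD bb
      rw [hi', cbN_eq]
      have e1 : (1 - (s : ℝ) / S) = ((S : ℝ) - s) / S := by field_simp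
      rw [e1, div_pow, div_pow]
      push_cast
      have e2 : (S : ℝ) ^ K = S ^ j * S ^ i := by rw [hi, pow_add]
      have e3 : (4 : ℝ) ^ (n + K) = 4 ^ (n + j) * 4 ^ i := by rw [hi, ← add_assoc, pow_add]
      rw [e2, e3]
      have : (S : ℝ) ≠ 0 := hS.ne'
      field_simp
  unfold BN bnN
  rw [h1 (K + 1) le_rfl]

theorem bb_pos (n : ℕ) : 0 < bb n := by
  unfold bb
  have := Nat.centralBinom_pos n
  positivity

theorem BN_pos {K : ℕ} {σ : ℝ} (h0 : 0 ≤ σ) (h1 : σ ≤ 1) (n : ℕ) : 0 < BN K σ n := by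
  unfold BN
  rcases eq_or_lt_of_le h0 with h | h
  · apply sum_pos'
    · intro m _
      have := bb_pos (n + m)
      have : 0 ≤ 1 - σ := by linarith
      positivity
    · refine ⟨0, by simp, ?_⟩
      have := bb_pos (n + 0)
      rw [← h]
      simpa using this
  · apply sum_pos'
    · intro m _
      have := bb_pos (n + m)
      have : 0 ≤ 1 - σ := by linarith
      positivity
    · refine ⟨K, by simp, ?_⟩
      have := bb_pos (n + K)
      simp only [Nat.choose_self, Nat.cast_one, Nat.sub_self, pow_zero, mul_one, one_mul]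
      positivity

theorem mod_le (k : ℕ) : ((k % 2 : ℕ) : ℝ) ≤ k := by exact_mod_cast Nat.mod_le k 2

theorem FM_pos {k M : ℕ} {v : ℝ} (hv : v ≤ k) : 0 < FM k M v := by
  unfold FM FF
  have h1 : max v ((k % 2 : ℕ) : ℝ) ≤ k := max_le hv (mod_le k)
  have h2 : ((k % 2 : ℕ) : ℝ) ≤ max v ((k % 2 : ℕ) : ℝ) := le_max_right _ _
  have h3 : (k : ℝ) = 2 * (k / 2 : ℕ) + (k % 2 : ℕ) := by
    exact_mod_cast (Nat.div_add_mod k 2).symm
  apply BN_pos
  · apply div_nonneg
    · linarith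
    · positivity
  · apply div_le_one_of_le₀
    · linarith
    · positivity

/-- the variance parameter, rounded down, if `t / S ≤ v` -/
def sdn (k t : ℕ) : ℕ := (t - k % 2 * S) / (2 * (k / 2))

/-- the variance parameter, rounded up, if `v ≤ t / S` -/
def sup (k t : ℕ) : ℕ := min S ((t - k % 2 * S) / (2 * (k / 2)) + 1)

theorem FM_anti {k M : ℕ} {v v' : ℝ} (h : v ≤ v') (h' : v' ≤ k) : FM k M v' ≤ FM k M v := by
  unfold FM
  exact FF_antitone (max_le_max h le_rfl) (max_le h' (mod_le k))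

/-- upper bound as a fraction -/
theorem FM_le_frac {k M t : ℕ} {v : ℝ} (ht : (t : ℝ) / S ≤ v) (hv : v ≤ k) :
    FM k M v ≤ (bnN (sdn k t) (k / 2) ((M + k % 2) / 2) : ℝ) / bnD (k / 2) ((M + k % 2) / 2) := by
  have hS := S_pos
  have h3 : (k : ℝ) = 2 * (k / 2 : ℕ) + (k % 2 : ℕ) := by
    exact_mod_cast (Nat.div_add_mod k 2).symm
  have htk : (t : ℝ) ≤ k * S := by
    rw [div_le_iff₀ hS] at ht
    have := mul_le_mul_of_nonneg_right hv hS.le
    linarith
  have htk' : t ≤ k * S := by exact_mod_cast htk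
  have hs : sdn k t ≤ S := by
    unfold sdn
    rcases Nat.eq_zero_or_pos (k / 2) with h0 | h0
    · rw [h0]; simp
    · apply Nat.div_le_of_le_mul
      have h4 : k = 2 * (k / 2) + k % 2 := (Nat.div_add_mod k 2).symm
      have h5 : k * S = 2 * (k / 2) * S + k % 2 * S := by
        conv_lhs => rw [h4]
        ring
      omega
  rw [← BN_eq hs]
  have h1 : FM k M v ≤ FF k M ((k % 2 : ℕ) + 2 * (k / 2 : ℕ) * ((sdn k t : ℝ) / S)) := by
    unfold FM
    apply FF_antitone _ (max_le hv (mod_le k))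
    have h6 : ((2 * (k / 2 : ℕ) : ℕ) : ℝ) * (sdn k t : ℝ) ≤ max ((t : ℝ) - (k % 2 : ℕ) * S) 0 := by
      have h7 : 2 * (k / 2) * sdn k t ≤ t - k % 2 * S := Nat.mul_div_le _ _
      have h8 : ((2 * (k / 2) * sdn k t : ℕ) : ℝ) ≤ ((t - k % 2 * S : ℕ) : ℝ) := by
        exact_mod_cast h7
      rcases le_total (k % 2 * S) t with h9 | h9
      · rw [Nat.cast_sub h9] at h8
        push_cast at h8 ⊢
        exact le_trans h8 (le_max_left _ _)
      · rw [Nat.sub_eq_zero_of_le h9] at h8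
        push_cast at h8 ⊢
        exact le_trans h8 (le_max_right _ _)
    have h10 : 2 * ((k / 2 : ℕ) : ℝ) * ((sdn k t : ℝ) / S) ≤
        max (v - (k % 2 : ℕ)) 0 := by
      have e1 : 2 * ((k / 2 : ℕ) : ℝ) * ((sdn k t : ℝ) / S) =
          ((2 * (k / 2 : ℕ) : ℕ) : ℝ) * (sdn k t : ℝ) / S := by push_cast; ring
      rw [e1, div_le_iff₀ hS]
      refine h6.trans ?_
      rw [max_mul_of_nonneg _ _ hS.le, zero_mul]
      apply max_le_max _ le_rfl
      rw [div_le_iff₀ hS] at ht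
      linarith
    calc ((k % 2 : ℕ) : ℝ) + 2 * ((k / 2 : ℕ) : ℝ) * ((sdn k t : ℝ) / S)
        ≤ (k % 2 : ℕ) + max (v - (k % 2 : ℕ)) 0 := by linarith
      _ = max v (k % 2 : ℕ) := by
        rw [← max_add_add_left]; simp
  refine h1.trans (le_of_eq ?_)
  unfold FF
  rcases Nat.eq_zero_or_pos (k / 2) with h0 | h0
  · rw [h0]; simp [BN]
  · congr 1
    have : ((k / 2 : ℕ) : ℝ) ≠ 0 := by exact_mod_cast h0.ne'
    rw [add_sub_cancel_left]
    field_simp

/-- lower bound as a fraction -/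
theorem le_FM_frac {k M t : ℕ} {v : ℝ} (ht : v ≤ (t : ℝ) / S) (hv : v ≤ k) :
    (bnN (sup k t) (k / 2) ((M + k % 2) / 2) : ℝ) / bnD (k / 2) ((M + k % 2) / 2) ≤ FM k M v := by
  have hS := S_pos
  have h3 : (k : ℝ) = 2 * (k / 2 : ℕ) + (k % 2 : ℕ) := by
    exact_mod_cast (Nat.div_add_mod k 2).symm
  have hs : sup k t ≤ S := min_le_left _ _
  rw [← BN_eq hs]
  have hsR : (sup k t : ℝ) / S ≤ 1 := by
    rw [div_le_one hS]
    exact_mod_cast hs
  have h0' : (0 : ℝ) ≤ 2 * ((k / 2 : ℕ) : ℝ) := by positivity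
  have h1 : FF k M ((k % 2 : ℕ) + 2 * (k / 2 : ℕ) * ((sup k t : ℝ) / S)) ≤ FM k M v := by
    unfold FM
    apply FF_antitone
    · rcases Nat.eq_zero_or_pos (k / 2) with h0 | h0
      · rw [h0] at h3 ⊢
        simp only [Nat.cast_zero, mul_zero, zero_mul, add_zero, zero_add] at h3 ⊢
        rw [h3] at hv
        exact max_le hv le_rfl
      · apply max_le
        · rcases min_choice S ((t - k % 2 * S) / (2 * (k / 2)) + 1) with h4 | h4
          · unfold sup
            rw [h4, div_self hS.ne', mul_one]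
            linarith
          · unfold sup
            rw [h4]
            have h5 := lt_div_add_one (t - k % 2 * S) (2 * (k / 2)) (by omega)
            have h6 : (t : ℝ) - (k % 2 : ℕ) * S ≤ ((t - k % 2 * S : ℕ) : ℝ) := by
              have : t ≤ (t - k % 2 * S) + k % 2 * S := by omega
              have h7 : (t : ℝ) ≤ ((t - k % 2 * S : ℕ) : ℝ) + (k % 2 : ℕ) * S := by
                exact_mod_cast this
              linarith
            have hk : (0 : ℝ) < ((2 * (k / 2) : ℕ) : ℝ) := by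
              have : 0 < 2 * (k / 2) := by omega
              exact_mod_cast this
            rw [div_le_iff₀ hk] at h5
            have h8 : 2 * ((k / 2 : ℕ) : ℝ) *
                ((((t - k % 2 * S) / (2 * (k / 2)) + 1 : ℕ) : ℝ) / S) =
                ((((t - k % 2 * S) / (2 * (k / 2)) : ℕ) : ℝ) + 1) * ((2 * (k / 2) : ℕ) : ℝ) / S := by
              push_cast
              ring
            rw [h8, ← sub_le_iff_le_add', le_div_iff₀ hS]
            have h9 : v * S ≤ t := by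
              rw [le_div_iff₀ hS] at ht
              exact ht
            calc (v - (k % 2 : ℕ)) * S = v * S - (k % 2 : ℕ) * S := by ring
              _ ≤ (t : ℝ) - (k % 2 : ℕ) * S := by linarith
              _ ≤ _ := h6.trans h5
        · have : 0 ≤ 2 * ((k / 2 : ℕ) : ℝ) * ((sup k t : ℝ) / S) := by positivity
          linarith
    · have := mul_le_mul_of_nonneg_left hsR h0'
      linarith
  refine le_trans (le_of_eq ?_) h1
  unfold FF
  rcases Nat.eq_zero_or_pos (k / 2) with h0 | h0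
  · rw [h0]; simp [BN]
  · congr 1
    have : ((k / 2 : ℕ) : ℝ) ≠ 0 := by exact_mod_cast h0.ne'
    rw [add_sub_cancel_left]
    field_simp

/-- lower bound of `- S * log (FM k M v)`, `t / S ≤ v` -/
def nlF (k M t : ℕ) : ℕ :=
  lgL (bnD (k / 2) ((M + k % 2) / 2)) (bnN (sdn k t) (k / 2) ((M + k % 2) / 2))

/-- upper bound of `- S * log (FM k M v)`, `v ≤ t / S` -/
def nuF (k M t : ℕ) : ℕ :=
  lgU (bnD (k / 2) ((M + k % 2) / 2)) (bnN (sup k t) (k / 2) ((M + k % 2) / 2))

theorem BN_le_one {K : ℕ} {σ : ℝ} (h0 : 0 ≤ σ) (h1 : σ ≤ 1) (n : ℕ) : BN K σ n ≤ 1 := by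
  have h5 : ∑ m ∈ range (K + 1), (K.choose m : ℝ) * (1 - σ) ^ (K - m) * σ ^ m = 1 := by
    have h6 := add_pow σ (1 - σ) K
    rw [add_sub_cancel, one_pow] at h6
    refine Eq.trans (sum_congr rfl fun m _ => ?_) h6.symm
    ring
  unfold BN
  refine le_trans (sum_le_sum fun m _ => ?_) h5.le
  have h3 : bb (n + m) ≤ 1 := by
    unfold bb
    rw [div_le_one (by positivity)]
    exact_mod_cast Nat.centralBinom_le_four_pow (n + m)
  have h4 : 0 ≤ (K.choose m : ℝ) * (1 - σ) ^ (K - m) * σ ^ m := by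
    have : 0 ≤ 1 - σ := by linarith
    positivity
  exact mul_le_of_le_one_right h4 h3

theorem div_S_le {s : ℕ} (hs : s ≤ S) : (s : ℝ) / S ≤ 1 := by
  rw [div_le_one S_pos]
  exact_mod_cast hs

theorem bnN_le {s : ℕ} (hs : s ≤ S) (K n : ℕ) : bnN s K n ≤ bnD K n := by
  have h1 := BN_le_one (K := K) (by positivity : (0 : ℝ) ≤ (s : ℝ) / S) (div_S_le hs) n
  rw [BN_eq hs, div_le_one (by exact_mod_cast bnD_pos K n)] at h1
  exact_mod_cast h1

theorem bnN_pos {s : ℕ} (hs : s ≤ S) (K n : ℕ) : 0 < bnN s K n := by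
  have h1 := BN_pos (K := K) (by positivity : (0 : ℝ) ≤ (s : ℝ) / S) (div_S_le hs) n
  rw [BN_eq hs] at h1
  rcases Nat.eq_zero_or_pos (bnN s K n) with h | h
  · rw [h] at h1
    simp at h1
  · exact h

theorem sdn_le {k t : ℕ} (h : t ≤ k * S) : sdn k t ≤ S := by
  unfold sdn
  rcases Nat.eq_zero_or_pos (k / 2) with h0 | h0
  · rw [h0]; simp
  · apply Nat.div_le_of_le_mul
    have h4 : k = 2 * (k / 2) + k % 2 := (Nat.div_add_mod k 2).symm
    have h5 : k * S = 2 * (k / 2) * S + k % 2 * S := by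
      conv_lhs => rw [h4]
      ring
    omega

theorem log_frac (a b : ℕ) :
    Real.log ((b : ℝ) / a) = -Real.log ((a : ℝ) / b) := by
  rw [← Real.log_inv, inv_div]

theorem log_FM_le {k M t : ℕ} {v : ℝ} (ht : (t : ℝ) / S ≤ v) (hv : v ≤ k) :
    Real.log (FM k M v) ≤ -((nlF k M t : ℝ) / S) := by
  have hS := S_pos
  have htk : t ≤ k * S := by
    have : (t : ℝ) ≤ k * S := by
      rw [div_le_iff₀ hS] at ht
      have := mul_le_mul_of_nonneg_right hv hS.le
      linarith
    exact_mod_cast this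
  have hs := sdn_le htk
  have h1 := FM_le_frac (M := M) ht hv
  have h2 := Real.log_le_log (FM_pos hv) h1
  refine h2.trans ?_
  rw [log_frac, neg_le_neg_iff, div_le_iff₀ hS]
  have h3 := lgL_le (bnN_pos hs (k / 2) ((M + k % 2) / 2)) (bnN_le hs _ _)
  unfold nlF
  linarith

theorem FM_le_exp {k M t : ℕ} {v : ℝ} (ht : (t : ℝ) / S ≤ v) (hv : v ≤ k) :
    FM k M v ≤ Real.exp (-((nlF k M t : ℝ) / S)) := by
  rw [← Real.log_le_iff_le_exp (FM_pos hv)]
  exact log_FM_le ht hv

theorem le_log_FM {k M t : ℕ} {v : ℝ} (ht : v ≤ (t : ℝ) / S) (hv : v ≤ k) :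
    -((nuF k M t : ℝ) / S) ≤ Real.log (FM k M v) := by
  have hS := S_pos
  have hs : sup k t ≤ S := min_le_left _ _
  have h1 := le_FM_frac (M := M) ht hv
  have h0 : (0 : ℝ) < (bnN (sup k t) (k / 2) ((M + k % 2) / 2) : ℝ) /
      bnD (k / 2) ((M + k % 2) / 2) := by
    apply div_pos
    · exact_mod_cast bnN_pos hs _ _
    · exact_mod_cast bnD_pos _ _
  have h2 := Real.log_le_log h0 h1
  refine le_trans ?_ h2
  rw [log_frac, neg_le_neg_iff, le_div_iff₀ hS]
  have h3 := le_lgU (bnN_pos hs (k / 2) ((M + k % 2) / 2)) (bnN_le hs _ _)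
  unfold nuF
  linarith

end MP_a3e05c_co.NUM
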