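import Pool.Agent.Lib.MP_a3e05c_co.NUM.Small

/-!
# EULER: closed components on `D + 1` vertices, the kernel checks
-/

namespace MP_a3e05c_co.NUM

theorem ck_5_1_3 : ck 5 1 3 = true := by decide +kernel
theorem ck_7_3_3 : ck 7 3 3 = true := by decide +kernel
theorem ck_7_1_4 : ck 7 1 4 = true := by decide +kernel
theorem ck_9_3_3 : ck 9 3 3 = true := by decide +kernel
theorem ck_11_4_3 : ck 11 4 3 = true := by decide +kernel
theorem ck_13_8_3 : ck 13 8 3 = true := by decide +kernel
theorem ck_15_8_4 : ck 15 8 4 = true := by decide +kernel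
theorem ck_17_12_4 : ck 17 12 4 = true := by decide +kernel
theorem ck_17_8_5 : ck 17 8 5 = true := by decide +kernel
theorem ck_19_11_5 : ck 19 11 5 = true := by decide +kernel
theorem ck_21_12_6 : ck 21 12 6 = true := by decide +kernel
theorem ck_23_6_9 : ck 23 6 9 = true := by decide +kernel
theorem ck_25_6_11 : ck 25 6 11 = true := by decide +kernel
theorem ck_27_6_12 : ck 27 6 12 = true := by decide +kernel

end MP_a3e05c_co.NUM
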