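import Pool.Agent.Lib.MP_a3e05c_co.NUM.FMn

/-!
# EULER, numerics: bounds of the potential

`nl d j ≤ - S * ffp d j ≤ nu d j`, `pL d k ≤ - S * phi d k ≤ pU d k`.
-/

open Finset

namespace MP_a3e05c_co.NUM

open KL

/-- logarithm of the factor in the explicit form -/
noncomputable def gf (d j : ℕ) : ℝ :=
  Real.log (bb (d / 2)) -
    (1 / 2) * Real.log (1 - ((j : ℝ) * ((j : ℝ) - 1)) / (((d : ℝ) - 1) ^ 2 * ((d : ℝ) - j + 1)))

/-- denominator and numerator of `1 - j (j - 1) / ((d - 1) ^ 2 (d - j + 1))` -/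
def gD (d j : ℕ) : ℕ := (d - 1) ^ 2 * (d - j + 1)
def gN (d j : ℕ) : ℕ := gD d j - j * (j - 1)

theorem gN_pos {d j : ℕ} (hd : 2 ≤ d) (hj : j < d) : 0 < gN d j := by
  unfold gN gD
  obtain ⟨a, rfl⟩ : ∃ a, d = a + 2 := ⟨d - 2, by omega⟩
  have h1 : j * (j - 1) ≤ (a + 1) * a := Nat.mul_le_mul (by omega) (by omega)
  have h2 : (a + 1) ^ 2 * 2 ≤ (a + 1) ^ 2 * (a + 2 - j + 1) := Nat.mul_le_mul_left _ (by omega)
  have h3 : (a + 2 - 1) = a + 1 := rfl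
  rw [h3]
  have h4 : (a + 1) * a < (a + 1) ^ 2 * 2 := by nlinarith
  omega

theorem gN_le (d j : ℕ) : gN d j ≤ gD d j := Nat.sub_le _ _

theorem gf_eq {d j : ℕ} (hd : 2 ≤ d) (hj : j < d) :
    -gf d j = Real.log ((4 ^ (d / 2) : ℕ) / (cbN (d / 2) : ℕ)) -
      (1 / 2) * Real.log ((gD d j : ℝ) / gN d j) := by
  have hN := gN_pos hd hj
  have hD : 0 < gD d j := lt_of_lt_of_le hN (gN_le d j)
  have h1 : Real.log (bb (d / 2)) = -Real.log ((4 ^ (d / 2) : ℕ) / (cbN (d / 2) : ℕ)) := by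
    rw [← Real.log_inv, inv_div, cbN_eq]
    unfold bb
    push_cast
    rfl
  have h2 : (1 - ((j : ℝ) * ((j : ℝ) - 1)) / (((d : ℝ) - 1) ^ 2 * ((d : ℝ) - j + 1))) =
      (gN d j : ℝ) / gD d j := by
    have e1 : ((gD d j : ℕ) : ℝ) = ((d : ℝ) - 1) ^ 2 * ((d : ℝ) - j + 1) := by
      unfold gD
      push_cast [Nat.cast_sub (show 1 ≤ d by omega), Nat.cast_sub hj.le]
      ring
    have e2 : ((j * (j - 1) : ℕ) : ℝ) = (j : ℝ) * ((j : ℝ) - 1) := by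
      rcases Nat.eq_zero_or_pos j with h | h
      · subst h; simp
      · push_cast [Nat.cast_sub (show 1 ≤ j from h)]
        ring
    have h3 : j * (j - 1) ≤ gD d j := by
      unfold gN at hN
      omega
    unfold gN
    rw [Nat.cast_sub h3, e2, ← e1]
    have : (gD d j : ℝ) ≠ 0 := by exact_mod_cast hD.ne'
    field_simp
  unfold gf
  rw [h1, h2, log_frac (gD d j) (gN d j)]
  ring

def glL (d j : ℕ) : ℤ :=
  (lgL (4 ^ (d / 2)) (cbN (d / 2)) : ℤ) - ((lgU (gD d j) (gN d j) / 2 + 1 : ℕ) : ℤ)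

def glU (d j : ℕ) : ℤ :=
  (lgU (4 ^ (d / 2)) (cbN (d / 2)) : ℤ) - ((lgL (gD d j) (gN d j) / 2 : ℕ) : ℤ)

theorem cbN_le (m : ℕ) : cbN m ≤ 4 ^ m := by
  rw [cbN_eq]; exact Nat.centralBinom_le_four_pow m

theorem cbN_pos (m : ℕ) : 0 < cbN m := by
  rw [cbN_eq]; exact Nat.centralBinom_pos m

theorem glL_le {d j : ℕ} (hd : 2 ≤ d) (hj : j < d) : (glL d j : ℝ) ≤ S * -gf d j := by
  rw [gf_eq hd hj]
  have h1 := lgL_le (cbN_pos (d / 2)) (cbN_le (d / 2))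
  have h2 := le_lgU (gN_pos hd hj) (gN_le d j)
  have h3 := lt_div_add_one (lgU (gD d j) (gN d j)) 2 (by norm_num)
  unfold glL
  rw [Int.cast_sub, Int.cast_natCast, Int.cast_natCast, Nat.cast_add, Nat.cast_one]
  rw [Nat.cast_ofNat] at h3
  linarith

theorem le_glU {d j : ℕ} (hd : 2 ≤ d) (hj : j < d) : S * -gf d j ≤ (glU d j : ℝ) := by
  rw [gf_eq hd hj]
  have h1 := le_lgU (cbN_pos (d / 2)) (cbN_le (d / 2))
  have h2 := lgL_le (gN_pos hd hj) (gN_le d j)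
  have h3 := div_le' (lgL (gD d j) (gN d j)) 2
  unfold glU
  rw [Int.cast_sub, Int.cast_natCast, Int.cast_natCast]
  rw [Nat.cast_ofNat] at h3
  linarith

/-- the exact factor for `j = d - 1` -/
noncomputable def xf (d : ℕ) : ℝ :=
  Real.log (FM (d - 1) 1 (((d - 1 : ℕ) : ℝ) - ((d - 1 : ℕ) : ℝ) * rh d (d - 1)))

/-- `S * (j - j ρ(d, j))` rounded down, `j = d - 1` -/
def tdn (d : ℕ) : ℕ := (d - 1) * S - ((d - 2) * S / 2 + 1)
def tup (d : ℕ) : ℕ := (d - 1) * S - (d - 2) * S / 2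

theorem top_arg {d : ℕ} (hd : 2 ≤ d) :
    (((d - 1 : ℕ) : ℝ) - ((d - 1 : ℕ) : ℝ) * rh d (d - 1)) = ((d : ℝ) - 1) - ((d : ℝ) - 2) / 2 := by
  unfold rh
  have h1 : ((d - 1 : ℕ) : ℝ) = (d : ℝ) - 1 := by
    rw [Nat.cast_sub (by omega)]; simp
  have h2 : (2 : ℝ) ≤ d := by exact_mod_cast hd
  have h3 : (d : ℝ) - 1 ≠ 0 := by linarith
  rw [h1]
  have h4 : (d : ℝ) - ((d : ℝ) - 1) + 1 = 2 := by ring
  rw [h4]
  field_simp
  ring

theorem log_xf_le {d : ℕ} (hd : 2 ≤ d) : (nlF (d - 1) 1 (tdn d) : ℝ) ≤ S * -xf d := by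
  have hS := S_pos
  have h2 : (2 : ℝ) ≤ d := by exact_mod_cast hd
  have h1 : ((d - 1 : ℕ) : ℝ) = (d : ℝ) - 1 := by
    rw [Nat.cast_sub (by omega)]; simp
  have h3 : (tdn d : ℝ) / S ≤ (((d - 1 : ℕ) : ℝ) - ((d - 1 : ℕ) : ℝ) * rh d (d - 1)) := by
    rw [top_arg hd, div_le_iff₀ hS]
    have h4 := lt_div_add_one ((d - 2) * S) 2 (by norm_num)
    have h5 : ((d - 2 : ℕ) : ℝ) = (d : ℝ) - 2 := by
      rw [Nat.cast_sub (by omega)]; simp
    push_cast [h5] at h4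
    unfold tdn
    have h6 : (d - 2) * S / 2 + 1 ≤ (d - 1) * S := by
      have e1 : (d - 2) * S / 2 ≤ (d - 2) * S := Nat.div_le_self _ _
      have e2 : (d - 1) * S = (d - 2) * S + S := by
        obtain ⟨a, rfl⟩ : ∃ a, d = a + 2 := ⟨d - 2, by omega⟩
        show (a + 1) * S = a * S + S
        ring
      have e3 : 1 ≤ S := by norm_num [S]
      omega
    rw [Nat.cast_sub h6]
    push_cast [h1, h5]
    linarith
  have h4 : (((d - 1 : ℕ) : ℝ) - ((d - 1 : ℕ) : ℝ) * rh d (d - 1)) ≤ ((d - 1 : ℕ) : ℝ) := by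
    rw [top_arg hd, h1]; linarith
  have h5 := log_FM_le (M := 1) h3 h4
  unfold xf
  have h6 : (nlF (d - 1) 1 (tdn d) : ℝ) = S * ((nlF (d - 1) 1 (tdn d) : ℝ) / S) := by
    rw [mul_div_cancel₀ _ hS.ne']
  rw [h6]
  apply mul_le_mul_of_nonneg_left _ hS.le
  linarith

theorem le_log_xf {d : ℕ} (hd : 2 ≤ d) : S * -xf d ≤ (nuF (d - 1) 1 (tup d) : ℝ) := by
  have hS := S_pos
  have h2 : (2 : ℝ) ≤ d := by exact_mod_cast hd
  have h1 : ((d - 1 : ℕ) : ℝ) = (d : ℝ) - 1 := by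
    rw [Nat.cast_sub (by omega)]; simp
  have h3 : (((d - 1 : ℕ) : ℝ) - ((d - 1 : ℕ) : ℝ) * rh d (d - 1)) ≤ (tup d : ℝ) / S := by
    rw [top_arg hd, le_div_iff₀ hS]
    have h4 := div_le' ((d - 2) * S) 2
    have h5 : ((d - 2 : ℕ) : ℝ) = (d : ℝ) - 2 := by
      rw [Nat.cast_sub (by omega)]; simp
    push_cast [h5] at h4
    unfold tup
    have h6 : (d - 2) * S / 2 ≤ (d - 1) * S := by
      have e1 : (d - 2) * S / 2 ≤ (d - 2) * S := Nat.div_le_self _ _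
      have e2 : (d - 2) * S ≤ (d - 1) * S := Nat.mul_le_mul_right _ (by omega)
      omega
    rw [Nat.cast_sub h6]
    push_cast [h1, h5]
    linarith
  have h4 : (((d - 1 : ℕ) : ℝ) - ((d - 1 : ℕ) : ℝ) * rh d (d - 1)) ≤ ((d - 1 : ℕ) : ℝ) := by
    rw [top_arg hd, h1]; linarith
  have h5 := le_log_FM (M := 1) h3 h4
  unfold xf
  have h6 : (nuF (d - 1) 1 (tup d) : ℝ) = S * ((nuF (d - 1) 1 (tup d) : ℝ) / S) := by
    rw [mul_div_cancel₀ _ hS.ne']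
  rw [h6]
  apply mul_le_mul_of_nonneg_left _ hS.le
  linarith

def sumZ (f : ℕ → ℤ) : ℕ → ℤ
  | 0 => 0
  | n + 1 => sumZ f n + f n

theorem sumZ_eq (f : ℕ → ℤ) (n : ℕ) : sumZ f n = ∑ i ∈ range n, f i := by
  induction n with
  | zero => rfl
  | succ n ih =>
    rw [sum_range_succ, ← ih]
    rfl

theorem ediv_le (a : ℤ) (b : ℕ) (hb : 0 < b) : ((a / b : ℤ) : ℝ) ≤ (a : ℝ) / b := by
  have hb' : (0 : ℝ) < b := by exact_mod_cast hb
  rw [le_div_iff₀ hb']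
  have h1 : a / (b : ℤ) * b ≤ a := Int.ediv_mul_le a (by exact_mod_cast hb.ne')
  exact_mod_cast h1

theorem lt_ediv_add_one (a : ℤ) (b : ℕ) (hb : 0 < b) : (a : ℝ) / b ≤ ((a / b : ℤ) : ℝ) + 1 := by
  have hb' : (0 : ℝ) < b := by exact_mod_cast hb
  rw [div_le_iff₀ hb']
  have h1 : a < (a / (b : ℤ) + 1) * b := Int.lt_ediv_add_one_mul_self a (by exact_mod_cast hb)
  exact_mod_cast h1.le

end MP_a3e05c_co.NUM
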