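import Pool.Agent.Lib.MP_a3e05c_co.NUM.Tab
import Pool.Agent.Lib.MP_a3e05c_co.NCS.Chain
import Pool.Agent.Lib.MP_a3e05c_co.KL.Pot

/-!
# EULER, numerics: lower bounds of `AA d`

`- S * AA d ≤ aU d` for even `d`.
-/

open Finset

namespace MP_a3e05c_co.NUM

open KL

/-- lower bounds of `RT n`, `n ≤ 23` -/
def RTl (n : ℕ) : ℕ :=
  if n = 3 then 2 else if n = 5 then 24 else if n = 7 then 2640 else if n = 9 then 3230080
  else if n = 11 then 48251508480 else if n = 13 then 9307700611292160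
  else if n = 15 then 24061983498249428379648
  else if n = 17 then 855847205541481495117975879680
  else if n = 19 then 427102009099124449965536944854574242240
  else if n = 21 then 3035890034606593848108396779148026682657839269520
  else if n = 23 then 309730805277905215004541028781254724301006201166405131270912
  else 0

/-- the values `RTl` are lower bounds (block RTK) -/
def RTlow : Prop := ∀ n, Odd n → 3 ≤ n → n ≤ 23 → RTl n ≤ RT n

/-- the general lower bound (block RT) -/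
def RTgen : Prop := ∀ n : ℕ, Odd n → 23 ≤ n → Real.exp (NCS.mainR n) ≤ PK n

theorem RTl_le (hR : RTlow) {n : ℕ} (hn : Odd n) (h3 : 3 ≤ n) (h : n ≤ 23) :
    RTl n ≤ RT n ∧ 0 < RTl n ∧ RTl n ≤ 2 ^ (n * (n - 1) / 2) := by
  refine ⟨hR n hn h3 h, ?_⟩
  have h1 : n = 3 ∨ n = 5 ∨ n = 7 ∨ n = 9 ∨ n = 11 ∨ n = 13 ∨ n = 15 ∨ n = 17 ∨ n = 19 ∨
      n = 21 ∨ n = 23 := by
    obtain ⟨k, rfl⟩ := hn
    omega
  rcases h1 with rfl | rfl | rfl | rfl | rfl | rfl | rfl | rfl | rfl | rfl | rfl <;>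
    exact ⟨by decide +kernel, by decide +kernel⟩

/-- `10 ^ 20 π < piU` -/
def piU : ℕ := 314159265358979323847

/-- upper bound of `- S * mainR n`, `n` odd -/
def mU (n : ℕ) : ℤ :=
  ((S / 2 + (n - 1) / 2 * lgU (piU * n) (2 * 10 ^ 20) : ℕ) : ℤ) - ((lgL n 1 / 2 : ℕ) : ℤ)

theorem le_mU {n : ℕ} (hn : Odd n) : S * -NCS.mainR n ≤ (mU n : ℝ) := by
  have hn1 : 1 ≤ n := hn.pos
  have hn0 : (0 : ℝ) < n := by exact_mod_cast hn1
  have hS := S_pos
  have h1 := le_lgU (a := piU * n) (b := 2 * 10 ^ 20) (by norm_num) (by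
    have : 2 * 10 ^ 20 ≤ piU * 1 := by norm_num [piU]
    exact this.trans (Nat.mul_le_mul_left _ hn1))
  have h2 := lgL_le (a := n) (b := 1) one_pos hn1
  have h3 := div_le' (lgL n 1) 2
  have h4 : Real.log (Real.pi * n / 2) ≤ Real.log (((piU * n : ℕ) : ℝ) / ((2 * 10 ^ 20 : ℕ) : ℝ)) := by
    apply Real.log_le_log (by positivity)
    have h5 := Real.pi_lt_d20
    have h6 : (((piU * n : ℕ) : ℝ) / ((2 * 10 ^ 20 : ℕ) : ℝ)) = (piU : ℝ) / 10 ^ 20 * n / 2 := by
      push_cast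
      field_simp
      ring
    rw [h6]
    have h7 : Real.pi ≤ (piU : ℝ) / 10 ^ 20 := by
      refine h5.le.trans (le_of_eq ?_)
      norm_num [piU]
    have h8 : Real.pi * n ≤ (piU : ℝ) / 10 ^ 20 * n := mul_le_mul_of_nonneg_right h7 hn0.le
    linarith
  obtain ⟨k, hk⟩ := hn
  have h5 : (n - 1) / 2 = k := by omega
  have h6 : ((n : ℝ) - 1) / 2 = k := by
    rw [hk]; push_cast; ring
  have hS2 : ((S / 2 : ℕ) : ℝ) = (S : ℝ) / 2 := by norm_num [S]
  unfold mU NCS.mainR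
  rw [Int.cast_sub, Int.cast_natCast, Int.cast_natCast, h5, h6, Nat.cast_add, Nat.cast_mul, hS2]
  rw [Nat.cast_ofNat] at h3
  rw [Nat.cast_one, div_one] at h2
  have h9 : (k : ℝ) * (S * Real.log (Real.pi * n / 2)) ≤ k * (lgU (piU * n) (2 * 10 ^ 20) : ℝ) := by
    apply mul_le_mul_of_nonneg_left _ (Nat.cast_nonneg k)
    exact (mul_le_mul_of_nonneg_left h4 hS.le).trans h1
  nlinarith

/-- upper bound of `- S * AA d` -/
def aU (d : ℕ) : ℤ :=
  if d ≤ 22 then (lgU (2 ^ ((d + 1) * d / 2)) (RTl (d + 1)) : ℤ) / (d + 1 : ℕ) + 1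
  else mU (d + 1) / (d + 1 : ℕ) + 1

theorem le_aU (hR : RTlow) (hP : RTgen) {d : ℕ} (hd : Even d)
    (h2 : 2 ≤ d) : S * -AA d ≤ (aU d : ℝ) := by
  have hS := S_pos
  have hodd : Odd (d + 1) := hd.add_one
  have hd1 : (0 : ℝ) < (d : ℝ) + 1 := by positivity
  unfold aU
  split_ifs with h
  · obtain ⟨h3, h4, h5⟩ := RTl_le hR hodd (by omega) (by omega)
    have e1 : (d + 1) * (d + 1 - 1) / 2 = (d + 1) * d / 2 := rfl
    rw [e1] at h5
    have h6 := le_lgU h4 h5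
    have h7 := lt_ediv_add_one (lgU (2 ^ ((d + 1) * d / 2)) (RTl (d + 1)) : ℤ) (d + 1)
      (Nat.succ_pos d)
    rw [Int.cast_natCast] at h7
    have h8 : -Real.log (PK (d + 1)) ≤
        Real.log (((2 ^ ((d + 1) * d / 2) : ℕ) : ℝ) / (RTl (d + 1) : ℝ)) := by
      rw [← Real.log_inv]
      have h9 : (0 : ℝ) < RTl (d + 1) := by exact_mod_cast h4
      have h10 : (RTl (d + 1) : ℝ) ≤ RT (d + 1) := by exact_mod_cast h3
      unfold PK
      rw [inv_div, e1]
      apply Real.log_le_log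
      · have h13 : (0 : ℝ) < RT (d + 1) := lt_of_lt_of_le h9 h10
        exact div_pos (pow_pos two_pos _) h13
      · rw [Nat.cast_pow, Nat.cast_ofNat]
        exact div_le_div_of_nonneg_left (pow_pos two_pos _).le h9 h10
    push_cast
    unfold AA
    have h11 : S * -(Real.log (PK (d + 1)) / ((d : ℝ) + 1)) =
        (S * -Real.log (PK (d + 1))) / ((d : ℝ) + 1) := by ring
    rw [h11]
    have h12 : (S * -Real.log (PK (d + 1))) ≤ (lgU (2 ^ ((d + 1) * d / 2)) (RTl (d + 1)) : ℝ) :=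
      (mul_le_mul_of_nonneg_left h8 hS.le).trans h6
    calc (S * -Real.log (PK (d + 1))) / ((d : ℝ) + 1)
        ≤ (lgU (2 ^ ((d + 1) * d / 2)) (RTl (d + 1)) : ℝ) / ((d : ℝ) + 1) :=
          div_le_div_of_nonneg_right h12 hd1.le
      _ = (lgU (2 ^ ((d + 1) * d / 2)) (RTl (d + 1)) : ℝ) / ((d + 1 : ℕ) : ℝ) := by push_cast; rfl
      _ ≤ _ := by
        refine h7.trans (le_of_eq ?_)
        push_cast
        rfl
  · have h3 := hP (d + 1) hodd (by omega)
    have h4 := le_mU hodd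
    have h7 := lt_ediv_add_one (mU (d + 1)) (d + 1) (Nat.succ_pos d)
    have h8 : NCS.mainR ((d + 1 : ℕ) : ℝ) ≤ Real.log (PK (d + 1)) := by
      rw [Real.le_log_iff_exp_le (lt_of_lt_of_le (Real.exp_pos _) h3)]
      exact h3
    unfold AA
    have h11 : S * -(Real.log (PK (d + 1)) / ((d : ℝ) + 1)) =
        (S * -Real.log (PK (d + 1))) / ((d : ℝ) + 1) := by ring
    rw [h11]
    have h12 : (S * -Real.log (PK (d + 1))) ≤ (mU (d + 1) : ℝ) := by
      refine le_trans ?_ h4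
      apply mul_le_mul_of_nonneg_left _ hS.le
      linarith
    calc (S * -Real.log (PK (d + 1))) / ((d : ℝ) + 1)
        ≤ (mU (d + 1) : ℝ) / ((d : ℝ) + 1) := div_le_div_of_nonneg_right h12 hd1.le
      _ = (mU (d + 1) : ℝ) / ((d + 1 : ℕ) : ℝ) := by push_cast; rfl
      _ ≤ _ := by
        refine h7.trans (le_of_eq ?_)
        push_cast
        rfl

theorem ffp_eq (d j : ℕ) : ffp d j = gf d j := by
  unfold ffp gf gg xx
  have : ((d : ℝ) - 1 + 2 - j) = (d : ℝ) - j + 1 := by ring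
  rw [this]
  ring

/-- lower bound of `- S * phi d k`, `k < d` -/
def pL (d k : ℕ) : ℤ := sumZ (glL d) (k + 1) / (k + 1 : ℕ)

/-- upper bound of `- S * phi d k`, `k < d` -/
def pU (d k : ℕ) : ℤ := sumZ (glU d) (k + 1) / (k + 1 : ℕ) + 1

theorem pL_le {d k : ℕ} (hd : 2 ≤ d) (hk : k < d) : (pL d k : ℝ) ≤ S * -phi d k := by
  have h1 := ediv_le (sumZ (glL d) (k + 1)) (k + 1) (Nat.succ_pos k)
  unfold pL phi
  rw [if_pos hk]
  refine h1.trans ?_
  have hk1 : (0 : ℝ) < (k : ℝ) + 1 := by positivity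
  push_cast
  rw [div_le_iff₀ hk1]
  have h2 : (S : ℝ) * -((∑ j ∈ range (k + 1), ffp d j) / ((k : ℝ) + 1)) * ((k : ℝ) + 1) =
      ∑ j ∈ range (k + 1), S * -gf d j := by
    rw [← mul_sum, sum_neg_distrib]
    simp only [ffp_eq]
    field_simp
  rw [h2, sumZ_eq, Int.cast_sum]
  refine sum_le_sum fun j hj => ?_
  rw [mem_range] at hj
  exact glL_le hd (by omega)

theorem le_pU {d k : ℕ} (hd : 2 ≤ d) (hk : k < d) : S * -phi d k ≤ (pU d k : ℝ) := by
  have h1 := lt_ediv_add_one (sumZ (glU d) (k + 1)) (k + 1) (Nat.succ_pos k)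
  unfold pU phi
  rw [if_pos hk, Int.cast_add, Int.cast_one]
  refine le_trans ?_ h1
  have hk1 : (0 : ℝ) < (k : ℝ) + 1 := by positivity
  push_cast
  rw [le_div_iff₀ hk1]
  have h2 : (S : ℝ) * -((∑ j ∈ range (k + 1), ffp d j) / ((k : ℝ) + 1)) * ((k : ℝ) + 1) =
      ∑ j ∈ range (k + 1), S * -gf d j := by
    rw [← mul_sum, sum_neg_distrib]
    simp only [ffp_eq]
    field_simp
  rw [h2, sumZ_eq, Int.cast_sum]
  refine sum_le_sum fun j hj => ?_
  rw [mem_range] at hj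
  exact le_glU hd (by omega)

end MP_a3e05c_co.NUM
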